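import Mathlib
import Pool.Agent.Lib.MP_e6a955_gt.Main

set_option autoImplicit false

namespace Pool.Agent.Results.MP_e6a955_gt.DimEq

open Set

/-- Every finite cover of `X` by cozero sets has a finite refinement by cozero sets, covering `X`,
in which every point lies in at most `m` members (that is, `dim X ≤ m - 1`). -/
def OrderLE (X : Type*) [TopologicalSpace X] (m : ℕ) : Prop :=
  ∀ (k : ℕ) (U : Fin k → Set X),
    (∀ i, ∃ f : C(X, ℝ), U i = {x | f x ≠ 0}) → (⋃ i, U i) = Set.univ →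
    ∃ (l : ℕ) (V : Fin l → Set X),
      (∀ j, ∃ f : C(X, ℝ), V j = {x | f x ≠ 0}) ∧ (⋃ j, V j) = Set.univ ∧
      (∀ j, ∃ i, V j ⊆ U i) ∧ ∀ x, {j | x ∈ V j}.ncard ≤ m

/-- The covering dimension, with values `⊥ = -1, 0, 1, …, ∞`. -/
noncomputable def covDim (X : Type*) [TopologicalSpace X] : WithBot ℕ∞ :=
  sInf {d : WithBot ℕ∞ | ∀ m : ℕ, d < m → OrderLE X m}

theorem order_iff {X : Type*} {l n : ℕ} (V : Fin l → Set X) :
    (∀ x, {j | x ∈ V j}.ncard ≤ n + 1) ↔
      ∀ s : Finset (Fin l), s.card = n + 2 → (⋂ j ∈ s, V j) = ∅ := by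
  constructor
  · intro h s hs
    rw [eq_empty_iff_forall_notMem]
    intro x hx
    have h1 : (s : Set (Fin l)) ⊆ {j | x ∈ V j} := fun j hj => mem_iInter₂.1 hx j hj
    have h2 := ncard_le_ncard h1 (toFinite _)
    rw [ncard_coe_finset] at h2
    have := h x
    omega
  · intro h x
    by_contra hlt
    obtain ⟨t, ht, htc⟩ := exists_subset_card_eq (s := {j | x ∈ V j}) (n := n + 2) (by omega)
    have h1 := h (toFinite t).toFinset (by rw [← ncard_eq_toFinset_card t (toFinite t), htc])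
    rw [eq_empty_iff_forall_notMem] at h1
    exact h1 x (mem_iInter₂.2 fun j hj => ht ((toFinite t).mem_toFinset.1 hj))

theorem orderLE_succ (X : Type*) [TopologicalSpace X] (n : ℕ) :
    OrderLE X (n + 1) ↔ Pool.Agent.Lib.MP_e6a955_gt.CozDim X n := by
  unfold OrderLE Pool.Agent.Lib.MP_e6a955_gt.CozDim
  simp only [order_iff]

theorem orderLE_zero (X : Type*) [TopologicalSpace X] : OrderLE X 0 ↔ IsEmpty X := by
  constructor
  · intro h
    obtain ⟨l, V, -, hc, -, hord⟩ := h 1 (fun _ => univ)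
      (fun _ => ⟨1, by simp⟩) (iUnion_const _)
    refine ⟨fun x => ?_⟩
    obtain ⟨j, hj⟩ := mem_iUnion.1 (hc.symm ▸ mem_univ x : x ∈ ⋃ j, V j)
    have h1 := (ncard_pos (toFinite _)).2 (⟨j, hj⟩ : {j | x ∈ V j}.Nonempty)
    have := hord x
    omega
  · intro h k U hU hc
    exact ⟨k, U, hU, hc, fun j => ⟨j, Subset.rfl⟩, fun x => h.elim x⟩

theorem isEmpty_of_equiv {X Y : Type*} (φ : (X → ℝ) ≃ (Y → ℝ)) (h : IsEmpty X) : IsEmpty Y := by
  refine ⟨fun y => ?_⟩
  have h1 : φ.symm (fun _ => 0) = φ.symm (fun _ => 1) := funext fun x => h.elim x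
  have h2 := congrFun (φ.symm.injective h1) y
  exact zero_ne_one h2

theorem result {X Y : Type*} [TopologicalSpace X] [TopologicalSpace Y] [T35Space X] [T35Space Y]
    (φ : (X → ℝ) ≃ₜ (Y → ℝ))
    (h : φ '' {f : X → ℝ | Continuous f} = {g : Y → ℝ | Continuous g}) :
    covDim X = covDim Y := by
  have key : ∀ m, OrderLE X m ↔ OrderLE Y m := by
    intro m
    cases m with
    | zero =>
      rw [orderLE_zero, orderLE_zero]
      exact ⟨isEmpty_of_equiv φ.toEquiv, isEmpty_of_equiv φ.toEquiv.symm⟩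
    | succ n =>
      rw [orderLE_succ, orderLE_succ]
      exact Pool.Agent.Lib.MP_e6a955_gt.cozDim_iff φ h n
  unfold covDim
  simp only [key]

end Pool.Agent.Results.MP_e6a955_gt.DimEq
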