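import Mathlib
import Pool.Agent.Lib.MP_e6a955_gt.OneE

set_option autoImplicit false

namespace Pool.Agent.Results.MP_e6a955_gt.StrongCountable

open Set

/-- `dim X ≤ n`: every finite cover of `X` by cozero sets has a finite refinement by cozero sets,
covering `X`, in which every point lies in at most `n + 1` members. -/
def DimLE (X : Type*) [TopologicalSpace X] (n : ℕ) : Prop :=
  ∀ (k : ℕ) (U : Fin k → Set X),
    (∀ i, ∃ f : C(X, ℝ), U i = {x | f x ≠ 0}) → (⋃ i, U i) = Set.univ →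
    ∃ (l : ℕ) (V : Fin l → Set X),
      (∀ j, ∃ f : C(X, ℝ), V j = {x | f x ≠ 0}) ∧ (⋃ j, V j) = Set.univ ∧
      (∀ j, ∃ i, V j ⊆ U i) ∧ ∀ x, {j | x ∈ V j}.ncard ≤ n + 1

/-- Strongly countable-dimensional: a countable union of closed subspaces of finite dimension. -/
def StronglyCountableDim (X : Type*) [TopologicalSpace X] : Prop :=
  ∃ F : ℕ → Set X, (∀ i, IsClosed (F i)) ∧ (⋃ i, F i) = Set.univ ∧ ∀ i, ∃ n, DimLE (F i) n

theorem order_iff {X : Type*} {l n : ℕ} (V : Fin l → Set X) :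
    (∀ x, {j | x ∈ V j}.ncard ≤ n + 1) ↔
      ∀ s : Finset (Fin l), s.card = n + 2 → (⋂ j ∈ s, V j) = ∅ := by
  constructor
  · intro h s hs
    rw [eq_empty_iff_forall_notMem]
    intro x hx
    have h1 : (s : Set (Fin l)) ⊆ {j | x ∈ V j} := fun j hj => mem_iInter₂.1 hx j hj
    have h2 := ncard_le_ncard h1 (toFinite _)
    rw [ncard_coe_finset] at h2
    have := h x
    omega
  · intro h x
    by_contra hlt
    obtain ⟨t, ht, htc⟩ := exists_subset_card_eq (s := {j | x ∈ V j}) (n := n + 2) (by omega)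
    have h1 := h (toFinite t).toFinset (by rw [← ncard_eq_toFinset_card t (toFinite t), htc])
    rw [eq_empty_iff_forall_notMem] at h1
    exact h1 x (mem_iInter₂.2 fun j hj => ht ((toFinite t).mem_toFinset.1 hj))

theorem dimLE_iff (X : Type*) [TopologicalSpace X] (n : ℕ) :
    DimLE X n ↔ Pool.Agent.Lib.MP_e6a955_gt.CozDim X n := by
  unfold DimLE Pool.Agent.Lib.MP_e6a955_gt.CozDim
  simp only [order_iff]

theorem scd_iff (X : Type*) [TopologicalSpace X] :
    StronglyCountableDim X ↔ Pool.Agent.Lib.MP_e6a955_gt.SCD X := by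
  unfold StronglyCountableDim Pool.Agent.Lib.MP_e6a955_gt.SCD
  simp only [dimLE_iff]

theorem result {X Y : Type*} [TopologicalSpace X] [TopologicalSpace Y]
    [TopologicalSpace.MetrizableSpace X] [SecondCountableTopology X]
    [TopologicalSpace.MetrizableSpace Y] [CompactSpace Y]
    (φ : (X → ℝ) → (Y → ℝ)) (hφ : Continuous φ)
    (h : φ '' {f : X → ℝ | Continuous f ∧ ∃ M : ℝ, ∀ x, |f x| ≤ M} =
      {g : Y → ℝ | Continuous g})
    (hX : StronglyCountableDim X) : StronglyCountableDim Y := by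
  rw [scd_iff] at hX ⊢
  exact Pool.Agent.Lib.MP_e6a955_gt.scd_of_map hφ h hX

end Pool.Agent.Results.MP_e6a955_gt.StrongCountable
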